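/- MP_8e9e20_co, part HSG: the Hoffman-Singleton graph. -/
import Pool.Agent.Helper48.AED.Spec2

namespace Pool.Agent.Helper33.AED.HSG

open Finset Pool.AED48

/-- the adjacency matrix, row by row, as one number -/
def M : ℕ := 0x30000020820c06000004106088800000830413000000182082600000410410406000040a05000c0000a040a0110000140a0406000040814080c0000814081000c000901240001800124048002200404809000c0008092020018001202404000180111110000030402222000044088044400018011100880003002222010000034210840000006842108000008908421000003021084200000604210842222209000008044445000001100888a00000222011140000044440320000012024801200002480900a0000809012014000101240402800024048082400008140a0002400140814001400028140800280081028100050010281020048004104180000480820c1000028010608200005003041040000a08208208000902108420000009421084000005084210800000a1084210000014210842000012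

/-- the entry `(i, j)` -/
def a (i j : ℕ) : ℕ := Nat.mod (Nat.shiftRight M (Nat.add (Nat.mul 50 i) j)) 2

/-- `∑ k < n, f k` -/
def s (f : ℕ → ℕ) (n : ℕ) : ℕ := Nat.rec 0 (fun n ih => Nat.add ih (f n)) n

/-- `∀ k < n, f k` -/
def allb (f : ℕ → Bool) (n : ℕ) : Bool := Nat.rec true (fun n ih => and (f n) ih) n

theorem s_eq (f : ℕ → ℕ) (n : ℕ) : s f n = ∑ k ∈ range n, f k := by
  induction n with
  | zero => rfl
  | succ n ih =>
    rw [Finset.sum_range_succ, ← ih]
    rfl

theorem allb_spec (f : ℕ → Bool) (n : ℕ) (h : allb f n = true) : ∀ k < n, f k = true := by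
  induction n with
  | zero => intro k hk; exact absurd hk (Nat.not_lt_zero k)
  | succ n ih =>
    have h' : and (f n) (allb f n) = true := h
    rw [Bool.and_eq_true] at h'
    intro k hk
    rcases Nat.lt_succ_iff_lt_or_eq.mp hk with hk | hk
    · exact ih h'.2 k hk
    · rw [hk]; exact h'.1

theorem symm_chk : allb (fun i => allb (fun j => Nat.beq (a i j) (a j i)) 50) 50 = true := by
  decide +kernel

theorem diag_chk : allb (fun i => Nat.beq (a i i) 0) 50 = true := by
  decide +kernel

theorem main_chk : allb (fun i => allb (fun j =>
    Nat.beq (Nat.add (s (fun k => Nat.mul (a i k) (a k j)) 50) (a i j))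
      (cond (Nat.beq i j) 7 1)) 50) 50 = true := by
  decide +kernel

theorem main : S_HSG := by
  refine ⟨fun i j => a i j, ?_, ?_, ?_, ?_⟩
  · intro i j
    exact Nat.eq_of_beq_eq_true (allb_spec _ 50 (allb_spec _ 50 symm_chk i i.2) j j.2)
  · intro i j
    exact Nat.le_of_lt_succ (Nat.mod_lt _ (by norm_num))
  · intro i
    exact Nat.eq_of_beq_eq_true (allb_spec _ 50 diag_chk i i.2)
  · intro i j
    have h := Nat.eq_of_beq_eq_true (allb_spec _ 50 (allb_spec _ 50 main_chk i i.2) j j.2)
    have h2 : ∑ k : Fin 50, a i k * a k j = s (fun k => Nat.mul (a i k) (a k j)) 50 := by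
      rw [s_eq]
      exact Fin.sum_univ_eq_sum_range (fun k => a i k * a k j) 50
    rw [h2]
    refine Eq.trans h ?_
    by_cases hij : i = j
    · subst hij
      simp
    · have : Nat.beq (i : ℕ) (j : ℕ) = false := by
        rw [← Bool.not_eq_true]
        intro hb
        exact hij (Fin.ext (Nat.eq_of_beq_eq_true hb))
      rw [this, if_neg hij]
      rfl

end Pool.Agent.Helper33.AED.HSG
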